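import Mathlib

open Polynomial

namespace Pool.Agent.Results.MP_93e32b_nt.TwoAdic

/-- `q` takes integer values at all integers. -/
def IntValued (q : ℚ[X]) : Prop := ∀ n : ℤ, ∃ m : ℤ, q.eval (n : ℚ) = m

/-- There are an integer-valued quadratic `q₀` and `q₁, q₂ ∈ ℚ[x]` with `p(q₀) = q₁² + q₂²`. -/
def Admits (p : ℤ[X]) : Prop :=
  ∃ q₀ q₁ q₂ : ℚ[X], IntValued q₀ ∧ q₀.natDegree = 2 ∧
    (p.map (Int.castRingHom ℚ)).comp q₀ = q₁ ^ 2 + q₂ ^ 2

/-- The cubic `x³ - x² + 2 x + 6`. -/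
noncomputable def P : ℤ[X] := X ^ 3 - X ^ 2 + 2 * X + 6

/-- Sums of two squares in a field. -/
def SS {F : Type*} [Field F] (x : F) : Prop := ∃ a b : F, x = a ^ 2 + b ^ 2

lemma SS.mul {F : Type*} [Field F] {x y : F} (hx : SS x) (hy : SS y) : SS (x * y) := by
  obtain ⟨a, b, rfl⟩ := hx
  obtain ⟨c, d, rfl⟩ := hy
  exact ⟨a * c - b * d, a * d + b * c, by ring⟩

lemma SS.div {F : Type*} [Field F] {x y : F} (hx : SS x) (hy : SS y) : SS (x / y) := by
  obtain ⟨a, b, h⟩ := hx.mul hy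
  by_cases h0 : y = 0
  · exact ⟨0, 0, by simp [h0]⟩
  · exact ⟨a / y, b / y, by field_simp; linear_combination h⟩

lemma bad_aux (z : ℤ_[2]) (hz : PadicInt.toZModPow 3 z = 3 ∨ PadicInt.toZModPow 3 z = 6 ∨
    PadicInt.toZModPow 3 z = 7) (a b : ℚ_[2]) (hab : ‖b‖ ≤ ‖a‖) (h : (z : ℚ_[2]) = a ^ 2 + b ^ 2) :
    False := by
  have ha : a ≠ 0 := by
    rintro rfl
    have hb : b = 0 := by simpa using hab
    subst hb
    have : z = 0 := by
      apply Subtype.ext; simpa using h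
    subst this
    revert hz; simp; decide
  have hpos : 0 < ‖a‖ := norm_pos_iff.2 ha
  let t : ℤ_[2] := ⟨b / a, by rw [norm_div]; exact (div_le_one hpos).2 hab⟩
  rcases le_total ‖a‖ 1 with h1 | h1
  · let s : ℤ_[2] := ⟨a, h1⟩
    have e : z = s ^ 2 * (1 + t ^ 2) := by
      apply Subtype.ext
      push_cast
      simp only [s, t]
      rw [h]; field_simp
    have e2 := congrArg (PadicInt.toZModPow 3) e
    simp only [map_mul, map_pow, map_add, map_one] at e2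
    rw [e2] at hz
    revert hz
    generalize PadicInt.toZModPow 3 s = x
    generalize PadicInt.toZModPow 3 t = y
    revert x y; decide
  · let s : ℤ_[2] := ⟨a⁻¹, by rw [norm_inv]; exact inv_le_one_of_one_le₀ h1⟩
    have e : z * s ^ 2 = 1 + t ^ 2 := by
      apply Subtype.ext
      push_cast
      simp only [s, t]
      rw [h]; field_simp
    have e2 := congrArg (PadicInt.toZModPow 3) e
    simp only [map_mul, map_pow, map_add, map_one] at e2
    revert hz e2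
    generalize PadicInt.toZModPow 3 s = x
    generalize PadicInt.toZModPow 3 t = y
    generalize PadicInt.toZModPow 3 z = w
    revert x y w; decide

lemma bad (z : ℤ_[2]) (hz : PadicInt.toZModPow 3 z = 3 ∨ PadicInt.toZModPow 3 z = 6 ∨
    PadicInt.toZModPow 3 z = 7) : ¬ SS (z : ℚ_[2]) := by
  rintro ⟨a, b, h⟩
  rcases le_total ‖b‖ ‖a‖ with h1 | h1
  · exact bad_aux z hz a b h1 h
  · exact bad_aux z hz b a h1 (by rw [h]; ring)

lemma aniso {a b : ℚ_[2]} (h : a ^ 2 + b ^ 2 = 0) : a = 0 ∧ b = 0 := by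
  have key : ∀ a b : ℚ_[2], a ^ 2 + b ^ 2 = 0 → b = 0 := by
    intro a b h
    by_contra hb
    refine bad (-1) (Or.inr (Or.inr (by simp; decide))) ⟨a / b, 0, ?_⟩
    push_cast
    field_simp
    linear_combination -h
  exact ⟨key b a (by rw [← h]; ring), key a b h⟩

lemma lead (q₁ q₂ : ℚ_[2][X]) : SS (q₁ ^ 2 + q₂ ^ 2).leadingCoeff := by
  set d := max q₁.natDegree q₂.natDegree with hd
  have hc : (q₁ ^ 2 + q₂ ^ 2).coeff (2 * d) = q₁.coeff d ^ 2 + q₂.coeff d ^ 2 := by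
    rw [coeff_add, coeff_pow_of_natDegree_le (le_max_left _ _),
      coeff_pow_of_natDegree_le (le_max_right _ _)]
  have hle : (q₁ ^ 2 + q₂ ^ 2).natDegree ≤ 2 * d :=
    (natDegree_add_le _ _).trans (max_le
      (natDegree_pow_le_of_le 2 (le_max_left _ _)) (natDegree_pow_le_of_le 2 (le_max_right _ _)))
  by_cases h0 : q₁.coeff d ^ 2 + q₂.coeff d ^ 2 = 0
  · obtain ⟨h1, h2⟩ := aniso h0
    rcases le_total q₁.natDegree q₂.natDegree with h | h
    · rw [hd, max_eq_right h, coeff_natDegree, leadingCoeff_eq_zero] at h2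
      subst h2
      exact ⟨q₁.leadingCoeff, 0, by simp⟩
    · rw [hd, max_eq_left h, coeff_natDegree, leadingCoeff_eq_zero] at h1
      subst h1
      exact ⟨q₂.leadingCoeff, 0, by simp⟩
  · rw [leadingCoeff, natDegree_eq_of_le_of_coeff_ne_zero hle (by rwa [hc]), hc]
    exact ⟨_, _, rfl⟩

lemma const_SS {b c : ℚ_[2]} {q₁ q₂ N : ℚ_[2][X]}
    (h : (X ^ 2 + C b * X + C c) * N = q₁ ^ 2 + q₂ ^ 2) (hN : ¬ X ^ 2 + C b * X + C c ∣ N) :
    SS c := by
  set M : ℚ_[2][X] := X ^ 2 + C b * X + C c with hM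
  have hdeg : M.natDegree = 2 := by rw [hM]; compute_degree!
  have hmon : M.Monic := by rw [hM]; monicity!
  have hne : M ≠ 1 := fun e => by rw [e] at hdeg; simp at hdeg
  have red : ∀ q : ℚ_[2][X], ∃ (k : ℚ_[2][X]) (u v : ℚ_[2]), q = M * k + (C v * X + C u) := by
    intro q
    have h1 := natDegree_modByMonic_lt q hmon hne
    refine ⟨q /ₘ M, (q %ₘ M).coeff 0, (q %ₘ M).coeff 1, ?_⟩
    rw [← eq_X_add_C_of_natDegree_le_one (by omega), add_comm, modByMonic_add_div]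
  obtain ⟨k₁, u₁, v₁, e₁⟩ := red q₁
  obtain ⟨k₂, u₂, v₂, e₂⟩ := red q₂
  have hdvd : M ∣ C (2 * (u₁ * v₁ + u₂ * v₂) - (v₁ ^ 2 + v₂ ^ 2) * b) * X +
      C (u₁ ^ 2 + u₂ ^ 2 - (v₁ ^ 2 + v₂ ^ 2) * c) := by
    refine ⟨N - (M * k₁ ^ 2 + 2 * k₁ * (C v₁ * X + C u₁) + M * k₂ ^ 2 + 2 * k₂ * (C v₂ * X + C u₂))
      - C (v₁ ^ 2 + v₂ ^ 2), ?_⟩
    rw [mul_sub, mul_sub, h, e₁, e₂]
    simp only [map_sub, map_mul, map_add, map_pow, map_ofNat, hM]
    ring
  have hz := eq_zero_of_dvd_of_natDegree_lt hdvd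
    (lt_of_le_of_lt natDegree_linear_le (by omega))
  have h0 := congrArg (fun q => coeff q 0) hz
  simp only [coeff_add, mul_coeff_zero, coeff_X_zero, mul_zero, coeff_C_zero, zero_add,
    coeff_zero] at h0
  by_cases hV : v₁ ^ 2 + v₂ ^ 2 = 0
  · exfalso
    rw [hV, zero_mul, sub_zero] at h0
    obtain ⟨rfl, rfl⟩ := aniso hV
    obtain ⟨rfl, rfl⟩ := aniso h0
    apply hN
    refine ⟨k₁ ^ 2 + k₂ ^ 2, mul_left_cancel₀ hmon.ne_zero ?_⟩
    rw [h, e₁, e₂]; simp; ring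
  · have : c = (u₁ ^ 2 + u₂ ^ 2) / (v₁ ^ 2 + v₂ ^ 2) := by
      field_simp; linear_combination -h0
    rw [this]
    exact SS.div ⟨_, _, rfl⟩ ⟨_, _, rfl⟩

lemma root : ∃ θ : ℤ_[2], θ ^ 3 - θ ^ 2 + 2 * θ + 6 = 0 := by
  have h := hensels_lemma (p := 2) (F := P) (a := (1 : ℤ_[2])) (by
    have e1 : P.aeval (1 : ℤ_[2]) = (8 : ℤ) := by simp [P, map_ofNat]; norm_num
    have e2 : P.derivative.aeval (1 : ℤ_[2]) = (3 : ℤ) := by simp [P, map_ofNat]
    have e3 : ‖((3 : ℤ) : ℤ_[2])‖ = 1 := by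
      refine le_antisymm (PadicInt.norm_le_one _) (not_lt.1 fun h => ?_)
      rw [PadicInt.norm_int_lt_one_iff_dvd] at h
      norm_num at h
    rw [e1, e2, e3, one_pow, PadicInt.norm_int_lt_one_iff_dvd]
    norm_num)
  obtain ⟨z, hz, -⟩ := h
  exact ⟨z, by simpa [P, map_ofNat] using hz⟩

lemma no_int_root (g : ℤ) : g ^ 3 - g ^ 2 + 2 * g + 6 ≠ 0 := by
  intro h
  have h1 : -3 < g := by nlinarith [sq_nonneg g, sq_nonneg (g + 3)]
  have h2 : g < 0 := by nlinarith [sq_nonneg g, sq_nonneg (g - 1)]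
  interval_cases g <;> norm_num at h

lemma not_admits : ¬ Admits P := by
  rintro ⟨q₀, q₁, q₂, hint, hdeg, h⟩
  obtain ⟨g, hg⟩ := hint 0
  obtain ⟨θ, hθ⟩ := root
  have hθ8 : PadicInt.toZModPow 3 θ = 1 := by
    have e := congrArg (PadicInt.toZModPow 3) hθ
    simp only [map_add, map_sub, map_mul, map_pow, map_ofNat, map_zero] at e
    revert e
    generalize PadicInt.toZModPow 3 θ = x
    revert x; decide
  have hθ' : (θ : ℚ_[2]) ^ 3 - (θ : ℚ_[2]) ^ 2 + 2 * θ + 6 = 0 := by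
    have := congrArg (PadicInt.Coe.ringHom (p := 2)) hθ
    simp only [map_add, map_sub, map_mul, map_pow, map_ofNat, map_zero] at this
    exact this
  let f : ℚ →+* ℚ_[2] := algebraMap ℚ ℚ_[2]
  have h' : (q₀.map f) ^ 3 - (q₀.map f) ^ 2 + 2 * (q₀.map f) + 6 = (q₁.map f) ^ 2 + (q₂.map f) ^ 2 := by
    have := congrArg (Polynomial.map f) h
    simpa [P] using this
  have hd : (q₀.map f).natDegree = 2 := by rw [natDegree_map, hdeg]
  have hc0 : (q₀.map f).coeff 0 = (g : ℚ_[2]) := by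
    rw [coeff_map, coeff_zero_eq_eval_zero]
    simp only [Int.cast_zero] at hg
    rw [hg]; simp [f]
  generalize q₀.map f = Q at h' hd hc0
  generalize q₁.map f = Q₁ at h'
  generalize q₂.map f = Q₂ at h'
  have hα : Q.coeff 2 ≠ 0 := by
    have := coeff_natDegree (p := Q)
    rw [hd] at this
    rw [this, leadingCoeff_ne_zero]
    rintro rfl; simp at hd
  have hQ : Q = C (Q.coeff 2) * X ^ 2 + C (Q.coeff 1) * X + C (g : ℚ_[2]) := by
    rw [← hc0]
    conv_lhs => rw [Q.as_sum_range_C_mul_X_pow, hd]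
    simp [Finset.sum_range_succ]; ring
  generalize Q.coeff 2 = α at hα hQ
  generalize Q.coeff 1 = β at hQ
  have hαSS : SS α := by
    have h1 := lead Q₁ Q₂
    have h2 : (Q ^ 3 - Q ^ 2 + 2 * Q + 6).leadingCoeff = α ^ 3 := by
      have h3 : (Q ^ 3 - Q ^ 2 + 2 * Q + 6).natDegree = 6 := by
        rw [hQ]; compute_degree!
      rw [leadingCoeff, h3, hQ]
      compute_degree!
    rw [← h', h2] at h1
    have : α = α ^ 3 / (α ^ 2 + 0 ^ 2) := by field_simp; ring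
    rw [this]
    exact h1.div ⟨_, _, rfl⟩
  set M : ℚ_[2][X] := X ^ 2 + C (β / α) * X + C ((g - θ) / α) with hM
  have hA : Q - C (θ : ℚ_[2]) = C α * M := by
    rw [hM, mul_add, mul_add, ← mul_assoc, ← C_mul, ← C_mul, mul_div_cancel₀ _ hα,
      mul_div_cancel₀ _ hα, hQ, map_sub]
    ring
  have hθC : C (θ : ℚ_[2]) ^ 3 - C (θ : ℚ_[2]) ^ 2 + 2 * C (θ : ℚ_[2]) + 6 = 0 := by
    have := congrArg (C : ℚ_[2] → ℚ_[2][X]) hθ'
    simpa only [map_add, map_sub, map_mul, map_pow, map_ofNat, map_zero] using this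
  have hc : SS (((g : ℚ_[2]) - θ) / α) := by
    refine const_SS (b := β / α) (q₁ := Q₁) (q₂ := Q₂)
      (N := C α * (Q ^ 2 + (C (θ : ℚ_[2]) - 1) * Q + (C (θ : ℚ_[2]) ^ 2 - C (θ : ℚ_[2]) + 2))) ?_ ?_
    · rw [← hM, ← mul_assoc, mul_comm M, ← hA, ← h']
      linear_combination -hθC
    · rw [← hM]
      intro hdvd
      have h1 : M ∣ C (α * (3 * θ ^ 2 - 2 * θ + 2)) := by
        have e : C (α * (3 * (θ : ℚ_[2]) ^ 2 - 2 * θ + 2)) =
            C α * (Q ^ 2 + (C (θ : ℚ_[2]) - 1) * Q + (C (θ : ℚ_[2]) ^ 2 - C (θ : ℚ_[2]) + 2)) -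
              C α * M * (C α * (Q + 2 * C (θ : ℚ_[2]) - 1)) := by
          rw [← hA]
          simp only [map_add, map_sub, map_mul, map_pow, map_ofNat]
          ring
        rw [e]
        exact dvd_sub hdvd ((Dvd.intro_left _ rfl).mul_right _)
      have h2 : M.natDegree = 2 := by rw [hM]; compute_degree!
      have h3 := eq_zero_of_dvd_of_natDegree_lt h1 (by rw [natDegree_C, h2]; norm_num)
      rw [C_eq_zero, mul_eq_zero] at h3
      rcases h3 with h3 | h3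
      · exact hα h3
      · have h4 : 3 * θ ^ 2 - 2 * θ + 2 = 0 := by
          apply Subtype.coe_injective
          change PadicInt.Coe.ringHom (p := 2) (3 * θ ^ 2 - 2 * θ + 2) = PadicInt.Coe.ringHom (p := 2) 0
          simp only [map_add, map_sub, map_mul, map_pow, map_ofNat, map_zero]
          exact h3
        have e := congrArg (PadicInt.toZModPow 3) h4
        simp only [map_add, map_sub, map_mul, map_pow, map_ofNat, map_zero, hθ8] at e
        revert e; decide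
  have hA0 : SS (((g : ℤ_[2]) - θ : ℤ_[2]) : ℚ_[2]) := by
    have := hαSS.mul hc
    rw [mul_div_cancel₀ _ hα] at this
    push_cast; exact this
  have hB0 : SS (((g : ℤ_[2]) ^ 2 + (θ - 1) * g + (θ ^ 2 - θ + 2) : ℤ_[2]) : ℚ_[2]) := by
    have h1 := congrArg (eval 0) h'
    simp only [eval_add, eval_sub, eval_mul, eval_pow, eval_ofNat, ← coeff_zero_eq_eval_zero,
      hc0] at h1
    have hne : (g : ℚ_[2]) - θ ≠ 0 := by
      intro h0
      rw [sub_eq_zero] at h0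
      rw [← h0] at hθ'
      exact no_int_root g (by exact_mod_cast hθ')
    have := SS.div ⟨_, _, h1⟩ hA0
    push_cast at this ⊢
    rwa [show ((g : ℚ_[2]) ^ 3 - (g : ℚ_[2]) ^ 2 + 2 * g + 6) / (g - θ) =
      (g : ℚ_[2]) ^ 2 + (θ - 1) * g + ((θ : ℚ_[2]) ^ 2 - θ + 2) by
        field_simp; linear_combination hθ'] at this
  have key : ∀ x : ZMod (2 ^ 3), (x - 1 = 3 ∨ x - 1 = 6 ∨ x - 1 = 7) ∨
      (x ^ 2 + (1 - 1) * x + (1 ^ 2 - 1 + 2) = 3 ∨ x ^ 2 + (1 - 1) * x + (1 ^ 2 - 1 + 2) = 6 ∨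
        x ^ 2 + (1 - 1) * x + (1 ^ 2 - 1 + 2) = 7) := by decide
  rcases key (PadicInt.toZModPow 3 (g : ℤ_[2])) with hk | hk
  · exact bad _ (by simpa only [map_sub, hθ8] using hk) hA0
  · exact bad _ (by simpa only [map_add, map_sub, map_mul, map_pow, map_ofNat, map_one, hθ8]
      using hk) hB0

lemma P_monic : P.Monic := by unfold P; monicity!

lemma P_deg : P.natDegree = 3 := by unfold P; compute_degree!

lemma P_irr : Irreducible P := by
  rw [P_monic.irreducible_iff_roots_eq_zero_of_degree_le_three (by rw [P_deg]; norm_num)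
    (by rw [P_deg]), Multiset.eq_zero_iff_forall_notMem]
  intro g hg
  rw [mem_roots P_monic.ne_zero] at hg
  exact no_int_root g (by simpa [P] using hg)

theorem result :
    (P.Monic ∧ P.natDegree = 3 ∧ Irreducible P ∧ ¬ Admits P) ∧
    ¬ ∀ p : ℤ[X], p.Monic → p.natDegree = 3 → Irreducible p → Admits p :=
  ⟨⟨P_monic, P_deg, P_irr, not_admits⟩, fun h => not_admits (h P P_monic P_deg P_irr)⟩

end Pool.Agent.Results.MP_93e32b_nt.TwoAdic
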